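import Mathlib

/-!
# Characteristic `p` part: a coefficient (Cartier operator) argument
-/

namespace Pool.Agent.Lib.MP_4362c3_ag

open MvPolynomial Finset

variable {m : ℕ}

/-- The Fermat polynomial `x_1^n + ... + x_m^n` over a commutative ring. -/
noncomputable def fermat (R : Type*) [CommRing R] (m n : ℕ) : MvPolynomial (Fin m) R :=
  ∑ i : Fin m, X i ^ n

/-- the exponent `p c + (p-1) (1,...,1)` -/
noncomputable def ex (p : ℕ) (c : Fin m →₀ ℕ) : Fin m →₀ ℕ :=
  p • c + Finsupp.equivFunOnFinite.symm (fun _ => p - 1)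

lemma ex_apply (p : ℕ) (c : Fin m →₀ ℕ) (i : Fin m) : ex p c i = p * c i + (p - 1) := by
  simp [ex]

lemma fermat_isHomogeneous (R : Type*) [CommRing R] (m n : ℕ) :
    (fermat R m n).IsHomogeneous n := by
  unfold fermat
  apply IsHomogeneous.sum
  intro i _
  simpa using (isHomogeneous_X R i).pow n

/-- In characteristic `p`, derivatives have no coefficients at exponents `≡ -1 mod p`. -/
lemma coeff_pderiv_eq_zero {F : Type*} [Field F] (p : ℕ) [CharP F p] (hp : p.Prime)
    (V : MvPolynomial (Fin m) F) (i : Fin m) (c : Fin m →₀ ℕ) :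
    coeff (ex p c) (pderiv i V) = 0 := by
  rw [coeff_pderiv, ex_apply]
  have h : ((p * c i + (p - 1) : ℕ) : F) + 1 = 0 := by
    have h1 : (p * c i + (p - 1)) + 1 = p * (c i + 1) := by
      have := hp.pos
      rw [mul_add]
      omega
    have h2 : (((p * c i + (p - 1)) + 1 : ℕ) : F) = ((p * (c i + 1) : ℕ) : F) := by rw [h1]
    push_cast at h2 ⊢
    rw [h2]
    simp
  rw [h, mul_zero]

/-- The coefficient of `(x_1 ... x_m)^(p-1)` in `fermat^(p-1)`. -/
lemma coeff_fermat_pow (R : Type*) [CommRing R] (p q : ℕ) (hm : 0 < m) (hq : p - 1 = m * q) :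
    coeff (Finsupp.equivFunOnFinite.symm (fun _ : Fin m => p - 1)) (fermat R m m ^ (p - 1)) =
      (Nat.multinomial Finset.univ (fun _ : Fin m => q) : R) := by
  classical
  unfold fermat
  rw [Finset.sum_pow_eq_sum_piAntidiag]
  rw [coeff_sum]
  rw [Finset.sum_eq_single (fun _ : Fin m => q)]
  · have h1 : (∏ i : Fin m, (X i ^ m : MvPolynomial (Fin m) R) ^ q) =
        monomial (Finsupp.equivFunOnFinite.symm (fun _ : Fin m => p - 1)) 1 := by
      rw [monomial_eq]
      simp only [map_one, one_mul]
      rw [Finsupp.prod_fintype _ _ (by simp)]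
      apply Finset.prod_congr rfl
      intro i _
      simp [← pow_mul, hq]
    rw [h1]
    rw [← map_natCast (C : R →+* MvPolynomial (Fin m) R), coeff_C_mul, coeff_monomial]
    simp
  · intro k hk hne
    have h1 : (∏ i : Fin m, (X i ^ m : MvPolynomial (Fin m) R) ^ (k i)) =
        monomial (Finsupp.equivFunOnFinite.symm (fun i : Fin m => m * k i)) 1 := by
      rw [monomial_eq]
      simp only [map_one, one_mul]
      rw [Finsupp.prod_fintype _ _ (by simp)]
      apply Finset.prod_congr rfl
      intro i _
      simp [← pow_mul]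
    rw [h1]
    rw [← map_natCast (C : R →+* MvPolynomial (Fin m) R), coeff_C_mul, coeff_monomial]
    rw [if_neg, mul_zero]
    intro h
    apply hne
    funext i
    have := DFunLike.congr_fun h i
    simp only [Finsupp.equivFunOnFinite_symm_apply_apply] at this
    rw [hq] at this
    exact Nat.eq_of_mul_eq_mul_left hm this
  · intro h
    exfalso
    apply h
    rw [Finset.mem_piAntidiag]
    constructor
    · simp [hq]
    · intro i _
      simp

lemma multinomial_ne_zero {F : Type*} [Field F] (p q : ℕ) [CharP F p] (hp : p.Prime)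
    (hq : p - 1 = m * q) :
    (Nat.multinomial Finset.univ (fun _ : Fin m => q) : F) ≠ 0 := by
  intro h
  rw [CharP.cast_eq_zero_iff F p] at h
  have h2 := Nat.multinomial_spec (Finset.univ : Finset (Fin m)) (fun _ : Fin m => q)
  have h3 : p ∣ (∑ i : Fin m, q).factorial := by
    rw [← h2]
    exact Dvd.dvd.mul_left h _
  rw [hp.dvd_factorial] at h3
  simp only [Finset.sum_const, Finset.card_univ, Fintype.card_fin, smul_eq_mul] at h3
  have := hp.pos
  omega

/-- the key coefficient of `D^p Q^(p-1)` -/
lemma coeff_key {F : Type*} [Field F] (p q : ℕ) [CharP F p] (hp : p.Prime) (hm : 0 < m)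
    (hq : p - 1 = m * q) (D : MvPolynomial (Fin m) F) (c : Fin m →₀ ℕ) :
    coeff (ex p c) (D ^ p * fermat F m m ^ (p - 1)) =
      (coeff c D) ^ p * (Nat.multinomial Finset.univ (fun _ : Fin m => q) : F) := by
  classical
  have : Fact p.Prime := ⟨hp⟩
  have hD : D ^ p = ∑ b ∈ D.support, monomial (p • b) ((coeff b D) ^ p) := by
    conv_lhs => rw [D.as_sum]
    rw [sum_pow_char p]
    apply Finset.sum_congr rfl
    intro b _
    rw [monomial_pow]
  have hterm : ∀ b : Fin m →₀ ℕ, b ≠ c →
      coeff (ex p c) (monomial (p • b) ((coeff b D) ^ p) * fermat F m m ^ (p - 1)) = 0 := by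
    intro b hb
    rw [coeff_monomial_mul']
    split_ifs with hle
    · have hle' : b ≤ c := by
        intro i
        have h1 := hle i
        rw [ex_apply] at h1
        simp only [Finsupp.coe_smul, Pi.smul_apply, smul_eq_mul] at h1
        by_contra hcon
        push Not at hcon
        have h2 : p * (c i + 1) ≤ p * b i := Nat.mul_le_mul_left p hcon
        have := hp.pos
        rw [mul_add] at h2
        omega
      have hhom : (fermat F m m ^ (p - 1)).IsHomogeneous (m * (p - 1)) :=
        (fermat_isHomogeneous F m m).pow (p - 1)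
      have hdeg : (ex p c - p • b).degree ≠ m * (p - 1) := by
        intro hd
        have h1 : (ex p c - p • b).degree = ∑ i : Fin m, (p * (c i - b i) + (p - 1)) := by
          rw [Finsupp.degree_eq_sum]
          apply Finset.sum_congr rfl
          intro i _
          rw [Finsupp.tsub_apply, ex_apply]
          simp only [Finsupp.coe_smul, Pi.smul_apply, smul_eq_mul]
          have := hle' i
          rw [Nat.mul_sub]
          have h3 : p * b i ≤ p * c i := Nat.mul_le_mul_left p this
          omega
        rw [h1, Finset.sum_add_distrib] at hd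
        simp only [Finset.sum_const, Finset.card_univ, Fintype.card_fin, smul_eq_mul,
          Nat.add_eq_right, Finset.sum_eq_zero_iff, Finset.mem_univ, true_implies] at hd
        apply hb
        ext i
        have h4 := hd i
        have h5 := hle' i
        have h6 := hp.pos
        rcases Nat.mul_eq_zero.mp h4 with h7 | h7
        · omega
        · omega
      rw [hhom.coeff_eq_zero hdeg, mul_zero]
    · rfl
  have hmain : coeff (ex p c) (monomial (p • c) ((coeff c D) ^ p) * fermat F m m ^ (p - 1)) =
      (coeff c D) ^ p * (Nat.multinomial Finset.univ (fun _ : Fin m => q) : F) := by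
    rw [coeff_monomial_mul']
    have hle : p • c ≤ ex p c := by
      unfold ex
      exact le_self_add
    rw [if_pos hle]
    have h1 : ex p c - p • c = Finsupp.equivFunOnFinite.symm (fun _ : Fin m => p - 1) := by
      unfold ex
      rw [add_tsub_cancel_left]
    rw [h1, coeff_fermat_pow F p q hm hq]
  rw [hD, Finset.sum_mul, coeff_sum]
  by_cases hc : c ∈ D.support
  · rw [Finset.sum_eq_single c (fun b _ hb => hterm b hb) (fun h => absurd hc h)]
    exact hmain
  · rw [Finset.sum_eq_zero (fun b hb' => hterm b (fun h => hc (h ▸ hb')))]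
    rw [notMem_support_iff.mp hc, zero_pow hp.ne_zero, zero_mul]

/-- The characteristic `p` statement: the Fermat form is not exact. -/
theorem charP_case {F : Type*} [Field F] (p q : ℕ) [CharP F p] (hp : p.Prime) (hm : 0 < m)
    (hq : p - 1 = m * q) (D : MvPolynomial (Fin m) F) (P : Fin m → MvPolynomial (Fin m) F)
    (h : D ^ 2 = fermat F m m * ∑ i, (pderiv i (P i) * D - P i * pderiv i D)) : D = 0 := by
  classical
  by_contra hD0
  obtain ⟨c, hc⟩ : ∃ c, coeff c D ≠ 0 := by
    by_contra hcon
    push Not at hcon
    apply hD0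
    ext c
    simp [hcon c]
  set Q := fermat F m m with hQ
  have hp2 : 2 ≤ p := hp.two_le
  have hkey : D ^ p * Q ^ (p - 1) = ∑ i, pderiv i (Q ^ p * (P i * D ^ (p - 1))) := by
    have h1 : ∀ i, pderiv i (Q ^ p * (P i * D ^ (p - 1))) =
        Q ^ p * D ^ (p - 2) * (pderiv i (P i) * D - P i * pderiv i D) := by
      intro i
      have hQp : pderiv i (Q ^ p) = 0 := by
        rw [pderiv_pow]
        simp
      have hDp : pderiv i (D ^ (p - 1)) = - (D ^ (p - 2) * pderiv i D) := by
        rw [pderiv_pow]
        have : ((p - 1 : ℕ) : MvPolynomial (Fin m) F) = -1 := by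
          rw [Nat.cast_sub hp.pos]
          simp
        rw [this]
        have h2 : p - 1 - 1 = p - 2 := by omega
        rw [h2]
        ring
      rw [pderiv_mul, hQp, zero_mul, zero_add, pderiv_mul, hDp]
      have h3 : D ^ (p - 1) = D ^ (p - 2) * D := by
        rw [← pow_succ]
        congr 1
        omega
      rw [h3]
      ring
    rw [Finset.sum_congr rfl (fun i _ => h1 i), ← Finset.mul_sum]
    have h4 : Q ^ p = Q ^ (p - 1) * Q := by
      rw [← pow_succ]
      congr 1
      omega
    have h5 : D ^ p = D ^ (p - 2) * D ^ 2 := by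
      rw [← pow_add]
      congr 1
      omega
    rw [h5, h4, h]
    ring
  have h6 : coeff (ex p c) (D ^ p * Q ^ (p - 1)) = 0 := by
    rw [hkey, coeff_sum]
    apply Finset.sum_eq_zero
    intro i _
    exact coeff_pderiv_eq_zero p hp _ i c
  rw [hQ, coeff_key p q hp hm hq] at h6
  rcases mul_eq_zero.mp h6 with h7 | h7
  · exact hc (pow_eq_zero_iff hp.ne_zero |>.mp h7)
  · exact multinomial_ne_zero p q hp hq h7

end Pool.Agent.Lib.MP_4362c3_ag
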