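import Mathlib
import Pool.Agent.Lib.MP_4362c3_ag.CharP

/-!
# Descent: from a field of characteristic zero to a number field to characteristic `p`
-/

namespace Pool.Agent.Lib.MP_4362c3_ag

open MvPolynomial Finset

variable {m : ℕ}

/-- The polynomial identity expressing exactness. -/
def Bad (R : Type*) [CommRing R] (D : MvPolynomial (Fin m) R)
    (P : Fin m → MvPolynomial (Fin m) R) : Prop :=
  D ^ 2 = fermat R m m * ∑ i, (pderiv i (P i) * D - P i * pderiv i D)

lemma map_fermat {R S : Type*} [CommRing R] [CommRing S] (f : R →+* S) (m n : ℕ) :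
    map f (fermat R m n) = fermat S m n := by
  simp [fermat]

lemma Bad.map {R S : Type*} [CommRing R] [CommRing S] (f : R →+* S) {D : MvPolynomial (Fin m) R}
    {P : Fin m → MvPolynomial (Fin m) R} (h : Bad R D P) :
    Bad S (MvPolynomial.map f D) (fun i => MvPolynomial.map f (P i)) := by
  unfold Bad at *
  have := congrArg (MvPolynomial.map f) h
  simp only [map_pow, map_mul, map_sum, map_sub, map_fermat, pderiv_map] at this ⊢
  exact this

lemma Bad.of_map {R S : Type*} [CommRing R] [CommRing S] (f : R →+* S)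
    (hf : Function.Injective f) {D : MvPolynomial (Fin m) R}
    {P : Fin m → MvPolynomial (Fin m) R}
    (h : Bad S (MvPolynomial.map f D) (fun i => MvPolynomial.map f (P i))) : Bad R D P := by
  unfold Bad at *
  apply MvPolynomial.map_injective f hf
  simp only [map_pow, map_mul, map_sum, map_sub, map_fermat, pderiv_map] at h ⊢
  exact h

lemma Bad.smul {R : Type*} [CommRing R] (c : R) {D : MvPolynomial (Fin m) R}
    {P : Fin m → MvPolynomial (Fin m) R} (h : Bad R D P) :
    Bad R (C c * D) (fun i => C c * P i) := by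
  unfold Bad at *
  rw [mul_pow, h]
  simp only [pderiv_C_mul, Finset.mul_sum]
  apply Finset.sum_congr rfl
  intro i _
  ring

/-- Lifting polynomials along an injective ring map containing all the coefficients. -/
lemma exists_lift {R S : Type*} [CommRing R] [CommRing S] (f : R →+* S)
    (D : MvPolynomial (Fin m) S) (h : ∀ c, coeff c D ∈ Set.range f) :
    ∃ D' : MvPolynomial (Fin m) R, MvPolynomial.map f D' = D := by
  have : D ∈ Set.range (MvPolynomial.map (σ := Fin m) f) := by
    rw [mem_range_map_iff_coeffs_subset]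
    intro x hx
    rw [Finset.mem_coe, mem_coeffs_iff] at hx
    obtain ⟨n, _, rfl⟩ := hx
    exact h n
  exact this

theorem numberField_case {L : Type*} [Field L] [NumberField L] (hm : 0 < m)
    (D : MvPolynomial (Fin m) L) (P : Fin m → MvPolynomial (Fin m) L) (h : Bad L D P) :
    D = 0 := by
  classical
  by_contra hD0
  -- clear denominators
  obtain ⟨b, hb⟩ := IsLocalization.exist_integer_multiples_of_finset
    (nonZeroDivisors (NumberField.RingOfIntegers L))
    (D.coeffs ∪ Finset.univ.biUnion (fun i => (P i).coeffs) : Finset L)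
  set O := NumberField.RingOfIntegers L with hO
  set β : L := algebraMap O L (b : O) with hβ
  have hβ0 : β ≠ 0 := by
    rw [hβ]
    exact IsLocalization.to_map_ne_zero_of_mem_nonZeroDivisors L le_rfl b.2
  have hint : ∀ R : MvPolynomial (Fin m) L, (R.coeffs ⊆
      (D.coeffs ∪ Finset.univ.biUnion (fun i => (P i).coeffs) : Finset L)) →
      ∀ c, coeff c (C β * R) ∈ Set.range (algebraMap O L) := by
    intro R hR c
    rw [coeff_C_mul]
    by_cases hc : coeff c R = 0
    · rw [hc, mul_zero]
      exact ⟨0, map_zero _⟩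
    · have h1 := hb (coeff c R) (hR (coeff_mem_coeffs c hc))
      rw [Algebra.smul_def] at h1
      exact h1
  obtain ⟨D₁, hD₁⟩ := exists_lift (algebraMap O L) (C β * D) (hint D Finset.subset_union_left)
  have hP₁' : ∀ i, ∃ P₁ : MvPolynomial (Fin m) O, map (algebraMap O L) P₁ = C β * P i := by
    intro i
    refine exists_lift (algebraMap O L) (C β * P i) (hint (P i) ?_)
    refine Finset.Subset.trans ?_ Finset.subset_union_right
    exact Finset.subset_biUnion_of_mem (fun i => (P i).coeffs) (Finset.mem_univ i)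
  choose P₁ hP₁ using hP₁'
  have hbad₁ : Bad O D₁ P₁ := by
    apply Bad.of_map (algebraMap O L) (FaithfulSMul.algebraMap_injective O L)
    rw [hD₁]
    have h2 : (fun i => map (algebraMap O L) (P₁ i)) = fun i => C β * P i := funext hP₁
    rw [h2]
    exact h.smul β
  have hD₁0 : D₁ ≠ 0 := by
    intro h0
    rw [h0, map_zero] at hD₁
    rcases mul_eq_zero.mp hD₁.symm with h3 | h3
    · exact hβ0 ((C_injective (Fin m) L) (by simpa using h3))
    · exact hD0 h3
  obtain ⟨c, hc⟩ : ∃ c, coeff c D₁ ≠ 0 := by
    by_contra hcon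
    push Not at hcon
    apply hD₁0
    ext c
    simp [hcon c]
  set d := coeff c D₁ with hd
  set N := Ideal.absNorm (Ideal.span {d}) with hN
  have hN0 : N ≠ 0 := by
    rw [hN, Ne, Ideal.absNorm_eq_zero_iff, Ideal.span_singleton_eq_bot]
    exact hc
  have hNmem : (N : O) ∈ Ideal.span {d} := Ideal.absNorm_mem _
  obtain ⟨p, hp, hpN, hpm⟩ := Nat.exists_prime_gt_modEq_one N hm.ne'
  obtain ⟨q, hq⟩ : m ∣ p - 1 := (Nat.modEq_iff_dvd' hp.pos).mp hpm.symm
  have hmax : (Ideal.span {(p : ℤ)}).IsMaximal :=
    PrincipalIdealRing.isMaximal_of_irreducible (Nat.prime_iff_prime_int.mp hp).irreducible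
  obtain ⟨M, hM, hMp⟩ := Ideal.exists_ideal_over_maximal_of_isIntegral (S := O)
    (Ideal.span {(p : ℤ)}) (by
      rw [(RingHom.injective_iff_ker_eq_bot _).mp (FaithfulSMul.algebraMap_injective ℤ O)]
      exact bot_le)
  have hpM : (p : O) ∈ M := by
    have h1 : (p : ℤ) ∈ M.comap (algebraMap ℤ O) := by
      rw [hMp]
      exact Ideal.mem_span_singleton_self _
    simpa using h1
  have hdM : d ∉ M := by
    intro hdM
    have hNM : (N : O) ∈ M := by
      have h1 : Ideal.span {d} ≤ M := by
        rw [Ideal.span_le]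
        simpa using hdM
      exact h1 hNmem
    have hcop : IsCoprime (p : ℤ) (N : ℤ) := by
      rw [Nat.isCoprime_iff_coprime]
      rw [Nat.Prime.coprime_iff_not_dvd hp]
      intro hdvd
      exact absurd (Nat.le_of_dvd (Nat.pos_of_ne_zero hN0) hdvd) (by omega)
    obtain ⟨u, v, huv⟩ := hcop
    have h1 : (1 : O) ∈ M := by
      have h2 : ((u : O) * (p : O) + (v : O) * (N : O)) = 1 := by
        have h5 := congrArg (algebraMap ℤ O) huv
        simpa using h5
      rw [← h2]
      exact M.add_mem (M.mul_mem_left _ hpM) (M.mul_mem_left _ hNM)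
    exact hM.ne_top ((Ideal.eq_top_iff_one M).mpr h1)
  let _ : Field (O ⧸ M) := Ideal.Quotient.field M
  have hchar : CharP (O ⧸ M) p := by
    have h0 : ((p : ℕ) : O ⧸ M) = 0 := by
      have h5 := (Ideal.Quotient.eq_zero_iff_mem (I := M) (a := (p : O))).mpr hpM
      rw [map_natCast] at h5
      exact h5
    obtain ⟨r, hr⟩ := CharP.exists (O ⧸ M)
    have h1 : r ∣ p := (CharP.cast_eq_zero_iff (O ⧸ M) r p).mp h0
    rcases (Nat.dvd_prime hp).mp h1 with h2 | h2
    · subst h2
      exact absurd rfl (CharP.char_ne_one (O ⧸ M) 1)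
    · subst h2
      exact hr
  have hfin := charP_case p q hp hm hq _ _ (hbad₁.map (Ideal.Quotient.mk M))
  have h4 := congrArg (coeff c) hfin
  rw [coeff_map, coeff_zero] at h4
  exact hdM (Ideal.Quotient.eq_zero_iff_mem.mp h4)

theorem finiteType_case {A : Type*} [CommRing A] [Algebra ℚ A] [Algebra.FiniteType ℚ A]
    [Nontrivial A] (hm : 0 < m) (D : MvPolynomial (Fin m) A) (P : Fin m → MvPolynomial (Fin m) A)
    (h : Bad A D P) (c : Fin m →₀ ℕ) (e : A) (hunit : coeff c D * e = 1) : False := by
  obtain ⟨M, hM⟩ := Ideal.exists_maximal A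
  let _ : Field (A ⧸ M) := Ideal.Quotient.field M
  have hfin : Module.Finite ℚ (A ⧸ M) := finite_of_finite_type_of_isJacobsonRing ℚ (A ⧸ M)
  have hcz : CharZero (A ⧸ M) := algebraRat.charZero _
  have hNF : NumberField (A ⧸ M) := by
    refine { to_charZero := hcz, to_finiteDimensional := ?_ }
    convert hfin
    exact Subsingleton.elim _ _
  have hfin := numberField_case hm _ _ (h.map (Ideal.Quotient.mk M))
  have h4 := congrArg (coeff c) hfin
  rw [coeff_map, coeff_zero] at h4
  have h5 := congrArg (Ideal.Quotient.mk M) hunit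
  rw [map_mul, map_one, h4, zero_mul] at h5
  exact zero_ne_one h5

theorem charZero_case {k : Type*} [Field k] [CharZero k] (hm : 0 < m)
    (D : MvPolynomial (Fin m) k) (P : Fin m → MvPolynomial (Fin m) k) (h : Bad k D P) :
    D = 0 := by
  classical
  by_contra hD0
  obtain ⟨c, hc⟩ : ∃ c, coeff c D ≠ 0 := by
    by_contra hcon
    push Not at hcon
    apply hD0
    ext c
    simp [hcon c]
  set T : Finset k := (D.coeffs ∪ Finset.univ.biUnion (fun i => (P i).coeffs)) ∪ {(coeff c D)⁻¹}
    with hT
  set A := Algebra.adjoin ℚ (T : Set k) with hA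
  have hfg : A.FG := Subalgebra.fg_adjoin_finset T
  have hft : Algebra.FiniteType ℚ A := (Subalgebra.fg_iff_finiteType A).mp hfg
  have hsub : (T : Set k) ⊆ A := Algebra.subset_adjoin
  have hmemr : ∀ R : MvPolynomial (Fin m) k, (R.coeffs ⊆ T) →
      ∀ c, coeff c R ∈ Set.range (algebraMap A k) := by
    intro R hR c
    by_cases hc : coeff c R = 0
    · rw [hc]
      exact ⟨0, map_zero _⟩
    · have h1 : coeff c R ∈ A := hsub (hR (coeff_mem_coeffs c hc))
      exact ⟨⟨_, h1⟩, rfl⟩
  obtain ⟨D₁, hD₁⟩ := exists_lift (algebraMap A k) D (hmemr D (by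
    rw [hT]
    exact Finset.Subset.trans Finset.subset_union_left Finset.subset_union_left))
  have hP₁' : ∀ i, ∃ P₁ : MvPolynomial (Fin m) A, map (algebraMap A k) P₁ = P i := by
    intro i
    refine exists_lift (algebraMap A k) (P i) (hmemr (P i) ?_)
    rw [hT]
    refine Finset.Subset.trans ?_ Finset.subset_union_left
    refine Finset.Subset.trans ?_ Finset.subset_union_right
    exact Finset.subset_biUnion_of_mem (fun i => (P i).coeffs) (Finset.mem_univ i)
  choose P₁ hP₁ using hP₁'
  have hbad₁ : Bad A D₁ P₁ := by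
    apply Bad.of_map (algebraMap A k) (FaithfulSMul.algebraMap_injective A k)
    rw [hD₁]
    have h2 : (fun i => map (algebraMap A k) (P₁ i)) = P := funext hP₁
    rw [h2]
    exact h
  have hinv : (coeff c D)⁻¹ ∈ A := hsub (by simp [hT])
  have hunit : coeff c D₁ * (⟨_, hinv⟩ : A) = 1 := by
    apply FaithfulSMul.algebraMap_injective A k
    rw [map_mul, map_one]
    have h3 : algebraMap A k (coeff c D₁) = coeff c D := by
      rw [← hD₁, coeff_map]
    rw [h3]
    exact mul_inv_cancel₀ hc
  exact finiteType_case hm _ _ hbad₁ c _ hunit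

end Pool.Agent.Lib.MP_4362c3_ag
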