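import Mathlib

/-!
# Extension of a derivation of a domain to its fraction field (quotient rule)
-/

namespace Pool.Agent.Lib.MP_4362c3_ag

section

variable {k R K : Type*} [CommRing k] [CommRing R] [IsDomain R] [Algebra k R]
  [Field K] [Algebra R K] [IsFractionRing R K] [Algebra k K] [IsScalarTower k R K]

/-- The value given by the quotient rule for a representation `a / b`. -/
noncomputable def quotRule (δ : Derivation k R R) (a b : R) : K :=
  (algebraMap R K (δ a) * algebraMap R K b - algebraMap R K a * algebraMap R K (δ b)) /
    (algebraMap R K b) ^ 2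

omit [IsDomain R] [Algebra k K] [IsScalarTower k R K] in
lemma quotRule_wd (δ : Derivation k R R) (a b c d : R) (hb : b ≠ 0) (hd : d ≠ 0)
    (h : a * d = c * b) : (quotRule δ a b : K) = quotRule δ c d := by
  have hb' : algebraMap R K b ≠ 0 := by
    simpa using hb
  have hd' : algebraMap R K d ≠ 0 := by
    simpa using hd
  have h1 : algebraMap R K a * algebraMap R K d = algebraMap R K c * algebraMap R K b := by
    rw [← map_mul, ← map_mul, h]
  have h2 := congrArg (fun z => algebraMap R K (δ z)) h
  simp only [Derivation.leibniz, map_add, smul_eq_mul, map_mul] at h2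
  unfold quotRule
  rw [div_eq_div_iff (pow_ne_zero 2 hb') (pow_ne_zero 2 hd')]
  set a' := algebraMap R K a
  set b' := algebraMap R K b
  set c' := algebraMap R K c
  set d' := algebraMap R K d
  set da := algebraMap R K (δ a)
  set db := algebraMap R K (δ b)
  set dc := algebraMap R K (δ c)
  set dd := algebraMap R K (δ d)
  linear_combination (b' * d') * h2 - (b' * dd + db * d') * h1

variable (K) in
/-- a chosen representation as a fraction -/
noncomputable def extFun (δ : Derivation k R R) (f : K) : K :=
  quotRule δ (IsLocalization.sec (nonZeroDivisors R) f).1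
    ((IsLocalization.sec (nonZeroDivisors R) f).2 : R)

omit [Algebra k K] [IsScalarTower k R K] in
lemma extFun_div (δ : Derivation k R R) (a b : R) (hb : b ≠ 0) :
    extFun K δ (algebraMap R K a / algebraMap R K b) = quotRule δ a b := by
  unfold extFun
  set s := IsLocalization.sec (nonZeroDivisors R) (algebraMap R K a / algebraMap R K b) with hs
  have h := IsLocalization.sec_spec (nonZeroDivisors R) (algebraMap R K a / algebraMap R K b)
  rw [← hs] at h
  have hb' : algebraMap R K b ≠ 0 := by simpa using hb
  have hs2 : ((s.2 : R)) ≠ 0 := nonZeroDivisors.ne_zero s.2.2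
  apply quotRule_wd δ _ _ _ _ hs2 hb
  apply IsFractionRing.injective R K
  rw [map_mul, map_mul, ← h]
  field_simp

lemma exists_rep (f : K) : ∃ a b : R, b ≠ 0 ∧ f = algebraMap R K a / algebraMap R K b := by
  obtain ⟨a, b, hb, h⟩ := IsFractionRing.div_surjective (A := R) f
  exact ⟨a, b, nonZeroDivisors.ne_zero hb, h.symm⟩

variable (K) in
/-- The extension of a derivation of a domain to its fraction field. -/
noncomputable def fracExt (δ : Derivation k R R) : Derivation k K K where
  toFun := extFun K δ
  map_add' f g := by
    obtain ⟨a, b, hb, rfl⟩ := exists_rep (R := R) f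
    obtain ⟨c, d, hd, rfl⟩ := exists_rep (R := R) g
    have hb' : algebraMap R K b ≠ 0 := by simpa using hb
    have hd' : algebraMap R K d ≠ 0 := by simpa using hd
    have h1 : algebraMap R K a / algebraMap R K b + algebraMap R K c / algebraMap R K d =
        algebraMap R K (a * d + b * c) / algebraMap R K (b * d) := by
      simp only [map_add, map_mul]
      field_simp
    rw [h1, extFun_div δ _ _ (mul_ne_zero hb hd), extFun_div δ _ _ hb, extFun_div δ _ _ hd]
    unfold quotRule
    simp only [Derivation.leibniz, map_add, smul_eq_mul, map_mul]
    field_simp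
    ring
  map_smul' r f := by
    obtain ⟨a, b, hb, rfl⟩ := exists_rep (R := R) f
    have h1 : r • (algebraMap R K a / algebraMap R K b) =
        algebraMap R K (algebraMap k R r * a) / algebraMap R K b := by
      rw [Algebra.smul_def, IsScalarTower.algebraMap_apply k R K, map_mul]
      ring
    rw [h1, extFun_div δ _ _ hb, extFun_div δ _ _ hb]
    unfold quotRule
    simp only [Derivation.leibniz, smul_eq_mul, map_mul, RingHom.id_apply,
      Derivation.map_algebraMap, mul_zero, add_zero]
    rw [Algebra.smul_def, IsScalarTower.algebraMap_apply k R K]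
    ring
  map_one_eq_zero' := by
    have h1 : (1 : K) = algebraMap R K 1 / algebraMap R K 1 := by simp
    change extFun K δ 1 = 0
    rw [h1, extFun_div δ _ _ one_ne_zero]
    unfold quotRule
    simp
  leibniz' f g := by
    obtain ⟨a, b, hb, rfl⟩ := exists_rep (R := R) f
    obtain ⟨c, d, hd, rfl⟩ := exists_rep (R := R) g
    have hb' : algebraMap R K b ≠ 0 := by simpa using hb
    have hd' : algebraMap R K d ≠ 0 := by simpa using hd
    have h1 : algebraMap R K a / algebraMap R K b * (algebraMap R K c / algebraMap R K d) =
        algebraMap R K (a * c) / algebraMap R K (b * d) := by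
      simp only [map_mul]
      field_simp
    change extFun K δ (algebraMap R K a / algebraMap R K b *
      (algebraMap R K c / algebraMap R K d)) = (algebraMap R K a / algebraMap R K b) •
      extFun K δ (algebraMap R K c / algebraMap R K d) +
      (algebraMap R K c / algebraMap R K d) • extFun K δ (algebraMap R K a / algebraMap R K b)
    rw [h1, extFun_div δ _ _ (mul_ne_zero hb hd), extFun_div δ _ _ hb, extFun_div δ _ _ hd]
    unfold quotRule
    simp only [Derivation.leibniz, map_add, smul_eq_mul, map_mul]
    field_simp
    ring

lemma fracExt_div (δ : Derivation k R R) (a b : R) (hb : b ≠ 0) :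
    fracExt K δ (algebraMap R K a / algebraMap R K b) = quotRule δ a b :=
  extFun_div δ a b hb

lemma fracExt_algebraMap (δ : Derivation k R R) (a : R) :
    fracExt K δ (algebraMap R K a) = algebraMap R K (δ a) := by
  have h1 : algebraMap R K a = algebraMap R K a / algebraMap R K 1 := by simp
  conv_lhs => rw [h1]
  rw [fracExt_div δ _ _ one_ne_zero]
  unfold quotRule
  simp

variable (K) in
/-- A derivation of a domain extends uniquely to its fraction field. -/
theorem existsUnique_ext (δ : Derivation k R R) :
    ∃! D : Derivation k K K, ∀ a : R, D (algebraMap R K a) = algebraMap R K (δ a) := by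
  refine ⟨fracExt K δ, fracExt_algebraMap δ, ?_⟩
  intro D hD
  ext f
  obtain ⟨a, b, hb, rfl⟩ := exists_rep (R := R) f
  have hb' : algebraMap R K b ≠ 0 := by simpa using hb
  rw [fracExt_div δ _ _ hb]
  have h1 : D (algebraMap R K a) = D ((algebraMap R K a / algebraMap R K b) *
      algebraMap R K b) := by
    congr 1
    field_simp
  rw [Derivation.leibniz, hD, hD] at h1
  simp only [smul_eq_mul] at h1
  unfold quotRule
  field_simp at h1 ⊢
  linear_combination -h1

end

end Pool.Agent.Lib.MP_4362c3_ag
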